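import Pool.Agent.Helper85.CR.Goals

/-!
# Project CR, packet FDIS: the crossing is far from `h`
-/

set_option autoImplicit false

namespace Pool.Agent.Helper14.CR

open Pool.Agent.Helper85.CR

theorem walk_lev {V : Type} (H : SimpleGraph V) (f : V → ℕ)
    (hf : ∀ u v, H.Adj u v → f v ≤ f u + 1) {u v : V} (p : H.Walk u v) :
    f v ≤ f u + p.length := by
  induction p with
  | nil => simp
  | cons h p ih =>
    have h1 := hf _ _ h
    rw [SimpleGraph.Walk.length_cons]
    omega

theorem plan_some {V : Type} (G : SimpleGraph V) (a b c d u v : V) :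
    (planarize G a b c d).Adj (some u) (some v) ↔
      G.Adj u v ∧ s(u, v) ≠ s(a, c) ∧ s(u, v) ≠ s(b, d) := by
  unfold planarize
  rw [SimpleGraph.fromRel_adj]
  constructor
  · rintro ⟨_, h | h⟩
    · exact h
    · obtain ⟨h1, h2, h3⟩ := h
      refine ⟨h1.symm, ?_, ?_⟩
      · rw [Sym2.eq_swap]; exact h2
      · rw [Sym2.eq_swap]; exact h3
  · intro h
    refine ⟨?_, Or.inl h⟩
    intro h2
    exact h.1.ne (Option.some.inj h2)

theorem plan_none {V : Type} (G : SimpleGraph V) (a b c d : V) (y : Option V) :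
    (planarize G a b c d).Adj none y ↔
      y = some a ∨ y = some b ∨ y = some c ∨ y = some d := by
  unfold planarize
  rw [SimpleGraph.fromRel_adj]
  rcases y with _ | v
  · simp
  · constructor
    · rintro ⟨_, h | h⟩
      · rcases h with h | h | h | h
        · exact Or.inl (congrArg some h)
        · exact Or.inr (Or.inl (congrArg some h))
        · exact Or.inr (Or.inr (Or.inl (congrArg some h)))
        · exact Or.inr (Or.inr (Or.inr (congrArg some h)))
      · exact absurd h (by simp)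
    · intro h
      refine ⟨by simp, Or.inl ?_⟩
      rcases h with h | h | h | h
      · exact Or.inl (Option.some.inj h)
      · exact Or.inr (Or.inl (Option.some.inj h))
      · exact Or.inr (Or.inr (Or.inl (Option.some.inj h)))
      · exact Or.inr (Or.inr (Or.inr (Option.some.inj h)))

theorem close_adj {V : Type} (G : SimpleGraph V) (ρ : Fin 4 → V) (u v : V)
    (h : (close G ρ).Adj u v) : G.Adj u v ∨ ((∃ i, u = ρ i) ∧ ∃ j, v = ρ j) := by
  unfold close at h
  rw [SimpleGraph.sup_adj] at h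
  rcases h with h | h
  · exact Or.inl h
  · right
    rw [SimpleGraph.fromEdgeSet_adj] at h
    obtain ⟨h1, _⟩ := h
    rcases h1 with h1 | h1
    · rcases Sym2.eq_iff.1 h1 with ⟨h2, h3⟩ | ⟨h2, h3⟩
      · exact ⟨⟨_, h2⟩, ⟨_, h3⟩⟩
      · exact ⟨⟨_, h2⟩, ⟨_, h3⟩⟩
    · rcases Sym2.eq_iff.1 h1 with ⟨h2, h3⟩ | ⟨h2, h3⟩
      · exact ⟨⟨_, h2⟩, ⟨_, h3⟩⟩
      · exact ⟨⟨_, h2⟩, ⟨_, h3⟩⟩

theorem gFDIS (hPCNT : StmtPCNT) (hTRI4 : StmtTRI4) : StmtFDIS := by
  intro V _ G ρ h m hG hV hE
  obtain ⟨hconn, ⟨f, f0, f1, f2⟩, hk4⟩ := hG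
  have hc : (close G ρ).Connected := hconn.mono le_sup_left
  refine ⟨hc, ?_⟩
  intro a b c d hab had hcb hcd hac hbd hP
  have hcnt := hPCNT V (close G ρ) a b c d hab had hcb hcd hac hbd
  have hfg : ∀ u v, (close G ρ).Adj u v → f v ≤ f u + 1 := by
    intro u v huv
    rcases close_adj G ρ u v huv with h1 | ⟨⟨i, h1⟩, ⟨j, h2⟩⟩
    · exact f1 u v h1
    · rw [h1, h2, f2, f2]
      omega
  have hdist : ∀ w, f w ≤ (close G ρ).dist h w := by
    intro w
    obtain ⟨p, hp⟩ := hc.exists_walk_length_eq_dist h w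
    have h1 := walk_lev (close G ρ) f hfg p
    rw [f0, hp] at h1
    omega
  have htri := hTRI4 (Option V) (planarize (close G ρ) a b c d) hP
    (by rw [Fintype.card_option]; omega)
    (by rw [Fintype.card_option, hcnt]; omega)
    none (some a) (some b) (some c) (some d)
    (fun y => plan_none (close G ρ) a b c d y)
    (fun h1 => hab (Option.some.inj h1)) (fun h1 => hac.ne (Option.some.inj h1))
    (fun h1 => had (Option.some.inj h1)) (fun h1 => hcb (Option.some.inj h1).symm)
    (fun h1 => hbd.ne (Option.some.inj h1)) (fun h1 => hcd (Option.some.inj h1))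
    (fun h1 => ((plan_some (close G ρ) a b c d a c).1 h1).2.1 rfl)
  obtain ⟨t1, t2, t3, t4⟩ := htri
  have e1 : (close G ρ).Adj a b := ((plan_some _ a b c d a b).1 t1).1
  have e2 : (close G ρ).Adj b c := ((plan_some _ a b c d b c).1 t2).1
  have e3 : (close G ρ).Adj c d := ((plan_some _ a b c d c d).1 t3).1
  have e4 : (close G ρ).Adj d a := ((plan_some _ a b c d d a).1 t4).1
  have key : f a = m ∨ f b = m ∨ f c = m ∨ f d = m := by
    by_contra hne
    rw [not_or, not_or, not_or] at hne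
    obtain ⟨n1, n2, n3, n4⟩ := hne
    have hG' : ∀ u v, (close G ρ).Adj u v → f u ≠ m → G.Adj u v := by
      intro u v huv hu
      rcases close_adj G ρ u v huv with h1 | ⟨⟨i, h1⟩, _⟩
      · exact h1
      · exact absurd (by rw [h1, f2]) hu
    exact hk4 a b c d ⟨hG' _ _ e1 n1, hG' _ _ hac n1, (hG' _ _ e4 n4).symm, hG' _ _ e2 n2,
      hG' _ _ hbd n2, hG' _ _ e3 n3⟩
  have da := hdist a
  have db := hdist b
  have dc := hdist c
  have dd := hdist d
  have a1 := hfg _ _ e1
  have a2 := hfg _ _ e1.symm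
  have a3 := hfg _ _ e2
  have a4 := hfg _ _ e2.symm
  have a5 := hfg _ _ e3
  have a6 := hfg _ _ e3.symm
  have a7 := hfg _ _ e4
  have a8 := hfg _ _ e4.symm
  have a9 := hfg _ _ hac
  have a10 := hfg _ _ hac.symm
  have a11 := hfg _ _ hbd
  have a12 := hfg _ _ hbd.symm
  omega

end Pool.Agent.Helper14.CR
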